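import Pool.Agent.Helper526.Sch.Near

set_option autoImplicit false
set_option linter.unusedSectionVars false

open scoped InnerProductSpace ENNReal NNReal Topology
open Pool.Agent.Helper526.Sch Filter

namespace Pool.Agent.Results.MP_fc6e23_an.AbsoluteContractions

universe u v

variable {ι : Type v} {H : Type u} [NormedAddCommGroup H] [InnerProductSpace ℂ H] [CompleteSpace H]

/-- The linear operators on `𝔖_p`. -/
abbrev EndS (b : HilbertBasis ι ℂ H) (p : ℝ) (hp : 0 < p) : Type u :=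
  Module.End ℂ (SchattenClass b p hp)

/-- The norm of an element of `𝔖_p`. -/
noncomputable def nrm {b : HilbertBasis ι ℂ H} {p : ℝ} {hp : 0 < p} (x : SchattenClass b p hp) : ℝ :=
  schattenNorm b p (op x)

/-- `V` is an isometry of `𝔖_p`: a linear map with `‖V x‖_p = ‖x‖_p` (surjectivity not required). -/
def IsIsom {b : HilbertBasis ι ℂ H} {p : ℝ} {hp : 0 < p} (V : EndS b p hp) : Prop :=
  ∀ x, nrm (V x) = nrm x

/-- `T` is an absolute contraction on `𝔖_p`: a bounded linear operator on `𝔖_p` that maps `𝔖_1` to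
`𝔖_1` contractively for the `𝔖_1`-norm, and is contractive for the operator norm (= `𝔖_∞`-norm). -/
structure IsAbsoluteContraction {b : HilbertBasis ι ℂ H} {p : ℝ} {hp : 0 < p} (T : EndS b p hp) :
    Prop where
  bounded : ∃ C : ℝ, ∀ x, nrm (T x) ≤ C * nrm x
  mapsTo_one : ∀ x, IsSchatten b 1 (op x) → IsSchatten b 1 (op (T x))
  contr_one : ∀ x, IsSchatten b 1 (op x) → schattenNorm b 1 (op (T x)) ≤ schattenNorm b 1 (op x)
  contr_top : ∀ x, ‖op (T x)‖ ≤ ‖op x‖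

/-- `T ↦ (T^n x, y) = tr ((T^n x) y)` for `x ∈ 𝔖_p`, `y ∈ 𝔖_{p'}`. -/
noncomputable def coeff {b : HilbertBasis ι ℂ H} {p p' : ℝ} {hp : 0 < p} {hp' : 0 < p'} (n : ℕ)
    (x : SchattenClass b p hp) (y : SchattenClass b p' hp') (T : EndS b p hp) : ℂ :=
  trPair b (op ((T ^ n) x)) (op y)

/-- The pw-topology: the coarsest topology on the linear operators `T` of `𝔖_p` making all the
functions `T ↦ (T^n x, y)`, `n ≥ 0`, `x ∈ 𝔖_p`, `y ∈ 𝔖_{p'}`, continuous. -/
noncomputable def pwTopology (b : HilbertBasis ι ℂ H) (p p' : ℝ) (hp : 0 < p) (hp' : 0 < p') :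
    TopologicalSpace (EndS b p hp) :=
  ⨅ (n : ℕ) (x : SchattenClass b p hp) (y : SchattenClass b p' hp'),
    TopologicalSpace.induced (coeff n x y) inferInstance

/-- The pw-closure of the set of isometries of `𝔖_p`. -/
def pwClosIsometries (b : HilbertBasis ι ℂ H) (p p' : ℝ) (hp : 0 < p) (hp' : 0 < p') :
    Set (EndS b p hp) :=
  @closure _ (pwTopology b p p' hp hp') {V | IsIsom V}

/-! The operator `T a = ((a₁₁ + a₂₂)/2) (e₁₁ + e₂₂)` -/

noncomputable def coef (b : HilbertBasis ι ℂ H) (i j : ι) (x : H →L[ℂ] H) : ℂ :=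
  (⟪b i, x (b i)⟫_ℂ + ⟪b j, x (b j)⟫_ℂ) / 2

noncomputable def TT (b : HilbertBasis ι ℂ H) (i j : ι) {p : ℝ} (hp : 0 < p) : EndS b p hp where
  toFun x := coef b i j (op x) • EE b i j hp 1 1
  map_add' x y := by
    rw [← add_smul]
    congr 1
    simp only [coef, op_add, FunLike.coe_add, Pi.add_apply, inner_add_right]
    ring
  map_smul' c x := by
    rw [RingHom.id_apply, smul_smul]
    congr 1
    simp only [coef, op_smul, FunLike.coe_smul, Pi.smul_apply, inner_smul_right]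
    ring

lemma dg_smul (b : HilbertBasis ι ℂ H) (i j : ι) (c α β : ℂ) :
    c • dg b i j α β = dg b i j (c * α) (c * β) := by
  unfold dg
  rw [smul_add, smul_smul, smul_smul]

lemma coe_TT (b : HilbertBasis ι ℂ H) (i j : ι) {p : ℝ} (hp : 0 < p) (x : SchattenClass b p hp) :
    op (TT b i j hp x) = dg b i j (coef b i j (op x)) (coef b i j (op x)) := by
  have : op (TT b i j hp x) = coef b i j (op x) • dg b i j 1 1 := rfl
  rw [this, dg_smul, mul_one]

lemma norm_coef_rpow (b : HilbertBasis ι ℂ H) (i j : ι) {q : ℝ} (hq : 1 ≤ q) (x : H →L[ℂ] H) :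
    ‖coef b i j x‖ ^ q + ‖coef b i j x‖ ^ q ≤
      ‖⟪b i, x (b i)⟫_ℂ‖ ^ q + ‖⟪b j, x (b j)⟫_ℂ‖ ^ q := by
  have h1 : ‖coef b i j x‖ ≤ (‖⟪b i, x (b i)⟫_ℂ‖ + ‖⟪b j, x (b j)⟫_ℂ‖) / 2 := by
    unfold coef
    rw [norm_div]
    have : ‖(2 : ℂ)‖ = 2 := by simp
    rw [this]
    gcongr
    exact norm_add_le _ _
  have h2 := two_mul_rpow_le hq (norm_nonneg ⟪b i, x (b i)⟫_ℂ) (norm_nonneg ⟪b j, x (b j)⟫_ℂ)
  have h3 : ‖coef b i j x‖ ^ q ≤ ((‖⟪b i, x (b i)⟫_ℂ‖ + ‖⟪b j, x (b j)⟫_ℂ‖) / 2) ^ q := by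
    gcongr
  linarith

lemma tr_TT_le (b : HilbertBasis ι ℂ H) {i j : ι} (hij : i ≠ j) {p q : ℝ} (hp : 0 < p) (hq : 1 ≤ q)
    (x : SchattenClass b p hp) :
    trAbsPow b q (op (TT b i j hp x)) ≤ trAbsPow b q (op x) := by
  have hX : IsCompactOperator (star (op x) * (op x)) := (Cpt.of_compact (op_compact x)).1
  have hon := orthonormal_pair (b.orthonormal.1 i) (b.orthonormal.1 j) (b.orthonormal.2 hij)
  have h := sum_le_trAbsPow b hX hq hon hon
  rw [coe_TT, trAbsPow_dg b hij _ _ (by linarith)]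
  refine le_trans ?_ h
  rw [← ENNReal.ofReal_add (by positivity) (by positivity)]
  have h2 : ∑ k : Fin 2, ENNReal.ofReal (‖⟪![b i, b j] k, (op x) (![b i, b j] k)⟫_ℂ‖ ^ q) =
      ENNReal.ofReal (‖⟪b i, (op x) (b i)⟫_ℂ‖ ^ q + ‖⟪b j, (op x) (b j)⟫_ℂ‖ ^ q) := by
    rw [ENNReal.ofReal_add (by positivity) (by positivity)]
    simp [Fin.sum_univ_succ]
  rw [h2]
  exact ENNReal.ofReal_le_ofReal (norm_coef_rpow b i j hq _)

lemma schattenNorm_mono (b : HilbertBasis ι ℂ H) {q : ℝ} (hq : 0 < q) {x y : H →L[ℂ] H}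
    (hy : trAbsPow b q y < ∞) (h : trAbsPow b q x ≤ trAbsPow b q y) :
    schattenNorm b q x ≤ schattenNorm b q y := by
  unfold schattenNorm
  exact Real.rpow_le_rpow ENNReal.toReal_nonneg (ENNReal.toReal_mono hy.ne h) (by positivity)

lemma norm_dg_one_le (b : HilbertBasis ι ℂ H) {i j : ι} (hij : i ≠ j) : ‖dg b i j 1 1‖ ≤ 1 := by
  have h1 : star (dg b i j 1 1) * dg b i j 1 1 = dg b i j 1 1 := by
    rw [star_dg_mul b hij]
    simp [dg]
  have h2 : ‖star (dg b i j 1 1) * dg b i j 1 1‖ = ‖dg b i j 1 1‖ * ‖dg b i j 1 1‖ :=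
    CStarRing.norm_star_mul_self
  rw [h1] at h2
  by_contra hcon
  rw [not_le] at hcon
  nlinarith

lemma norm_coef_le (b : HilbertBasis ι ℂ H) (i j : ι) (x : H →L[ℂ] H) :
    ‖coef b i j x‖ ≤ ‖x‖ := by
  have h : ∀ k, ‖⟪b k, x (b k)⟫_ℂ‖ ≤ ‖x‖ := by
    intro k
    calc ‖⟪b k, x (b k)⟫_ℂ‖ ≤ ‖b k‖ * ‖x (b k)‖ := norm_inner_le_norm _ _
      _ ≤ ‖b k‖ * (‖x‖ * ‖b k‖) := by gcongr; exact x.le_opNorm _
      _ = ‖x‖ := by rw [b.orthonormal.1 k]; ring
  unfold coef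
  rw [norm_div]
  have h2 : ‖(2 : ℂ)‖ = 2 := by simp
  rw [h2, div_le_iff₀ (by norm_num)]
  calc _ ≤ ‖⟪b i, x (b i)⟫_ℂ‖ + ‖⟪b j, x (b j)⟫_ℂ‖ := norm_add_le _ _
    _ ≤ ‖x‖ + ‖x‖ := add_le_add (h i) (h j)
    _ = _ := by ring

lemma TT_absolute (b : HilbertBasis ι ℂ H) {i j : ι} (hij : i ≠ j) {p : ℝ} (hp : 0 < p)
    (hp1 : 1 ≤ p) : IsAbsoluteContraction (TT b i j hp) where
  bounded := ⟨1, fun x => by
    rw [one_mul]
    exact schattenNorm_mono b (by linarith) (op_fin x) (tr_TT_le b hij _ hp1 x)⟩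
  mapsTo_one := fun x _ => by
    rw [coe_TT]
    exact ⟨dg_compact b i j _ _, dg_fin b i j _ _ one_pos⟩
  contr_one := fun x hx => schattenNorm_mono b one_pos hx.2 (tr_TT_le b hij _ le_rfl x)
  contr_top := fun x => by
    have : op (TT b i j hp x) = coef b i j (op x) • dg b i j 1 1 := rfl
    rw [this, norm_smul]
    calc ‖coef b i j (op x)‖ * ‖dg b i j 1 1‖ ≤ ‖op x‖ * 1 := by
          gcongr
          · exact norm_coef_le b i j _
          · exact norm_dg_one_le b hij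
      _ = _ := mul_one _

/-! Isometries preserve the trace functional -/

lemma IsIsom.tr_eq {b : HilbertBasis ι ℂ H} {p : ℝ} {hp : 0 < p} {V : EndS b p hp}
    (hV : IsIsom V) (x : SchattenClass b p hp) :
    trAbsPow b p (op (V x)) = trAbsPow b p (op x) := by
  have h := hV x
  unfold nrm schattenNorm at h
  have h1 := (Real.rpow_left_inj (ENNReal.toReal_nonneg) (ENNReal.toReal_nonneg)
    (show (1 / p : ℝ) ≠ 0 by positivity)).1 h
  exact (ENNReal.toReal_eq_toReal_iff' (op_fin (V x)).ne (op_fin x).ne).1 h1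

/-! The deterministic estimates -/

section Det

variable (b : HilbertBasis ι ℂ H) {i j : ι} (hij : i ≠ j) {p : ℝ}

lemma op_EE (hp : 0 < p) (α β : ℂ) : op (EE b i j hp α β) = dg b i j α β := rfl

lemma EE_add (hp : 0 < p) (α β α' β' : ℂ) :
    EE b i j hp α β + EE b i j hp α' β' = EE b i j hp (α + α') (β + β') := by
  apply op_injective
  simp only [op_add, op_EE, dg]
  rw [add_smul, add_smul]
  abel

lemma EE_sub (hp : 0 < p) (α β α' β' : ℂ) :
    EE b i j hp α β - EE b i j hp α' β' = EE b i j hp (α - α') (β - β') := by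
  apply op_injective
  simp only [op_sub, op_EE, dg]
  rw [sub_smul, sub_smul]
  abel

lemma coef_dg (i j : ι) (hij : i ≠ j) (α β : ℂ) : coef b i j (dg b i j α β) = (α + β) / 2 := by
  classical
  unfold coef dg
  simp only [FunLike.coe_add, Pi.add_apply, FunLike.coe_smul, Pi.smul_apply, matUnit_apply,
    inner_basis b, inner_add_right, inner_smul_right]
  simp [hij, hij.symm]

/-- For an isometry `V`: `X = V e₁₁`, `Y = V e₂₂` are disjoint. -/
lemma disjoint_of_isom {hp : 0 < p} (hp2 : p ≠ 2) {V : EndS b p hp} (hij : i ≠ j)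
    (hV : IsIsom V) :
    (op (V (EE b i j hp 1 0)) * star (op (V (EE b i j hp 0 1))) = 0) ∧
    (star (op (V (EE b i j hp 1 0))) * op (V (EE b i j hp 0 1)) = 0) := by
  set x := V (EE b i j hp 1 0) with hx
  set y := V (EE b i j hp 0 1) with hy
  have htr : ∀ α β : ℂ, trAbsPow b p (op (V (EE b i j hp α β))) =
      ENNReal.ofReal (‖α‖ ^ p) + ENNReal.ofReal (‖β‖ ^ p) := by
    intro α β
    rw [hV.tr_eq]
    exact trAbsPow_dg b hij α β hp
  have hadd : op x + op y = op (V (EE b i j hp 1 1)) := by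
    rw [hx, hy, ← op_add, ← map_add, EE_add]
    simp
  have hsub : op x - op y = op (V (EE b i j hp 1 (-1))) := by
    rw [hx, hy, ← op_sub, ← map_sub, EE_sub]
    simp
  refine mccarthy_eq b (CptPair.of_compact (op_compact x) (op_compact y)) hp hp2 (op_fin x).ne
    (op_fin y).ne ?_
  rw [hadd, hsub, htr, htr, hx, hy, htr, htr]
  simp [Real.zero_rpow hp.ne']
  norm_num

/-- The main estimate: if `W = X + Y` with `X, Y` disjoint, `‖X‖_p ≤ 1`, `‖W‖_p^p ≤ 2`, then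
`‖X e - e/2‖` is controlled by the distance of `W` to the projection onto `span {e, e'}`. -/
lemma main_estimate (hp : 1 ≤ p) {X Y W : H →L[ℂ] H} (hX : Cpt X) (hW : Cpt W)
    (hWXY : W = X + Y) (hXY : X * star Y = 0) (htrX : trAbsPow b p X ≤ 1)
    (htrW : trAbsPow b p W ≤ ENNReal.ofReal 2) {e e' : H} (he : ‖e‖ = 1) (he' : ‖e'‖ = 1)
    (hee' : ⟪e, e'⟫_ℂ = 0) :
    ‖X e - (1 / 2 : ℂ) • e‖ ≤ ‖(star W) e - e‖ + (‖⟪X e, e⟫_ℂ - 1 / 2‖ +
      ‖⟪X e, e⟫_ℂ‖ * ‖W e - e‖ + ‖⟪X e', e⟫_ℂ‖ * (1 + ‖W e' - e'‖) +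
      ((2 - (‖⟪e, W e⟫_ℂ‖ ^ p + ‖⟪e', W e'⟫_ℂ‖ ^ p)) ^ (1 / p) +
      ‖(star W) e - e‖ + ‖(star W) e' - e'‖)) := by
  have hp0 : 0 < p := by linarith
  have he'e : ⟪e', e⟫_ℂ = 0 := by rw [← inner_conj_symm, hee', map_zero]
  set z := (star X) e with hz
  have hstarX : trAbsPow b p (star X) ≤ 1 := by rw [trAbsPow_star b hX hp0]; exact htrX
  have hz1 : ‖z‖ ≤ 1 := norm_apply_le_one b hX.star.1 hp hstarX he
  have hXn : ∀ y : H, ‖X y‖ ≤ ‖y‖ := by
    intro y
    by_cases hy : y = 0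
    · rw [hy, map_zero]
    · have hyn : 0 < ‖y‖ := norm_pos_iff.2 hy
      have h1 : ‖((‖y‖⁻¹ : ℝ) : ℂ) • y‖ = 1 := by
        rw [norm_smul, Complex.norm_real, norm_inv, norm_norm]
        field_simp
      have h2 := norm_apply_le_one b hX.1 hp htrX h1
      rw [map_smul, norm_smul, Complex.norm_real, norm_inv, norm_norm, inv_mul_le_iff₀ hyn,
        mul_one] at h2
      exact h2
  -- X (star W e) = W z
  have hYX : Y * star X = 0 := by
    have := congrArg star hXY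
    rwa [star_mul, star_star, star_zero] at this
  have h1 : X ((star W) e) = W z := by
    have e1 : X * star W = X * star X := by
      rw [hWXY, star_add, mul_add, hXY, add_zero]
    have e2 : W * star X = X * star X := by
      rw [hWXY, add_mul, hYX, add_zero]
    have e3 : (X * star W) e = (W * star X) e := by rw [e1, e2]
    exact e3
  have h2 : ‖X e - W z‖ ≤ ‖(star W) e - e‖ := by
    rw [← h1, ← map_sub]
    exact (hXn _).trans (norm_sub_rev _ _).le
  -- decomposition of z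
  set c1 := ⟪X e, e⟫_ℂ with hc1
  set c2 := ⟪X e', e⟫_ℂ with hc2
  have hc1z : ⟪e, z⟫_ℂ = c1 := by rw [hz, inner_star_right]
  have hc2z : ⟪e', z⟫_ℂ = c2 := by rw [hz, inner_star_right]
  set z' : H := z - c1 • e - c2 • e' with hz'
  have hez' : ⟪e, z'⟫_ℂ = 0 := by
    rw [hz', inner_sub_right, inner_sub_right, inner_smul_right, inner_smul_right, hee', hc1z,
      inner_self_eq_norm_sq_to_K, he]
    simp
  have he'z' : ⟪e', z'⟫_ℂ = 0 := by
    rw [hz', inner_sub_right, inner_sub_right, inner_smul_right, inner_smul_right, he'e, hc2z,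
      inner_self_eq_norm_sq_to_K, he']
    simp
  have hzdec : z = z' + (c1 • e + c2 • e') := by rw [hz']; abel
  have hz'1 : ‖z'‖ ≤ 1 := by
    have horth : ⟪z', c1 • e + c2 • e'⟫_ℂ = 0 := by
      have h3 : ⟪z', e⟫_ℂ = 0 := by rw [← inner_conj_symm, hez', map_zero]
      have h4 : ⟪z', e'⟫_ℂ = 0 := by rw [← inner_conj_symm, he'z', map_zero]
      rw [inner_add_right, inner_smul_right, inner_smul_right, h3, h4]
      simp
    have h5 := norm_add_sq_eq_norm_sq_add_norm_sq_of_inner_eq_zero z' (c1 • e + c2 • e') horth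
    rw [← hzdec] at h5
    by_contra hcon
    rw [not_le] at hcon
    nlinarith [norm_nonneg z, norm_nonneg z', norm_nonneg (c1 • e + c2 • e')]
  have h6 := small_on_compl b hW.1 hp htrW he he' hee' hz'1 hez' he'z'
  have h7 : W z - (1 / 2 : ℂ) • e = W z' + c2 • W e' + c1 • (W e - e) + (c1 - 1 / 2) • e := by
    rw [hzdec, map_add, map_add, map_smul, map_smul, smul_sub, sub_smul]
    abel
  have h8 : ‖W e'‖ ≤ 1 + ‖W e' - e'‖ := by
    calc ‖W e'‖ = ‖e' + (W e' - e')‖ := by congr 1; abel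
      _ ≤ ‖e'‖ + ‖W e' - e'‖ := norm_add_le _ _
      _ = _ := by rw [he']
  have h9 : ‖W z - (1 / 2 : ℂ) • e‖ ≤ ‖c1 - 1 / 2‖ + ‖c1‖ * ‖W e - e‖ +
      ‖c2‖ * (1 + ‖W e' - e'‖) + ‖W z'‖ := by
    rw [h7]
    calc _ ≤ ‖W z' + c2 • W e' + c1 • (W e - e)‖ + ‖(c1 - 1 / 2) • e‖ := norm_add_le _ _
      _ ≤ ‖W z'‖ + ‖c2 • W e'‖ + ‖c1 • (W e - e)‖ + ‖(c1 - 1 / 2) • e‖ := by
          gcongr
          exact norm_add₃_le
      _ = ‖W z'‖ + ‖c2‖ * ‖W e'‖ + ‖c1‖ * ‖W e - e‖ + ‖c1 - 1 / 2‖ := by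
          rw [norm_smul, norm_smul, norm_smul, he, mul_one]
      _ ≤ ‖W z'‖ + ‖c2‖ * (1 + ‖W e' - e'‖) + ‖c1‖ * ‖W e - e‖ + ‖c1 - 1 / 2‖ := by gcongr
      _ = _ := by ring
  calc ‖X e - (1 / 2 : ℂ) • e‖ = ‖(X e - W z) + (W z - (1 / 2 : ℂ) • e)‖ := by congr 1; abel
    _ ≤ ‖X e - W z‖ + ‖W z - (1 / 2 : ℂ) • e‖ := norm_add_le _ _
    _ ≤ _ := by
        refine add_le_add h2 (h9.trans ?_)
        gcongr

/-- the other relation: `‖X e‖² = re ⟪X e, W e⟫` -/
lemma norm_sq_eq {X Y W : H →L[ℂ] H} (hWXY : W = X + Y) (hXY : star X * Y = 0) (e : H) :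
    ‖X e‖ ^ 2 = RCLike.re ⟪X e, W e⟫_ℂ := by
  have h1 : ⟪X e, W e⟫_ℂ = ⟪X e, X e⟫_ℂ := by
    rw [← inner_star_right]
    have h2 : (star X) (W e) = (star X) (X e) := by
      have h3 : star X * W = star X * X := by rw [hWXY, mul_add, hXY, add_zero]
      exact congrArg (fun T : H →L[ℂ] H => T e) h3
    rw [h2, inner_star_right]
  rw [h1, inner_self_eq_norm_sq_to_K]
  norm_cast

end Det

/-! Passing to the limit -/

lemma coeff_continuous (b : HilbertBasis ι ℂ H) (p p' : ℝ) (hp : 0 < p) (hp' : 0 < p')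
    (x : SchattenClass b p hp) (y : SchattenClass b p' hp') :
    @Continuous _ _ (pwTopology b p p' hp hp') _
      (fun T : EndS b p hp => trPair b (op (T x)) (op y)) := by
  have h1 : @Continuous _ _ (pwTopology b p p' hp hp') _ (coeff (hp := hp) 1 x y) := by
    unfold pwTopology
    exact continuous_iInf_dom (i := 1) (continuous_iInf_dom (i := x) (continuous_iInf_dom (i := y)
      continuous_induced_dom))
  have h2 : coeff (hp := hp) 1 x y = fun T : EndS b p hp => trPair b (op (T x)) (op y) := by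
    funext T
    rw [coeff, pow_one]
  rwa [h2] at h1

/-- If `T` is in the pw-closure of the isometries, there is a filter of isometries converging
weakly to `T` (tested on matrix coefficients). -/
lemma exists_filter (b : HilbertBasis ι ℂ H) {p p' : ℝ} {hp : 0 < p} {hp' : 0 < p'}
    {T : EndS b p hp} (hT : T ∈ pwClosIsometries b p p' hp hp') :
    ∃ l : Filter (EndS b p hp), l.NeBot ∧ (∀ᶠ V in l, IsIsom V) ∧
      ∀ (x : SchattenClass b p hp) (k k' : ι),
        Tendsto (fun V : EndS b p hp => ⟪b k, op (V x) (b k')⟫_ℂ) l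
          (𝓝 ⟪b k, op (T x) (b k')⟫_ℂ) := by
  letI := pwTopology b p p' hp hp'
  refine ⟨𝓝 T ⊓ 𝓟 {V | IsIsom V}, mem_closure_iff_clusterPt.1 hT, ?_, ?_⟩
  · exact Filter.Eventually.filter_mono inf_le_right (Filter.eventually_principal.2 fun V hV => hV)
  · intro x k k'
    have h1 := (coeff_continuous b p p' hp hp' x (matS b k' k hp')).tendsto T
    have h2 := h1.mono_left (inf_le_left (a := 𝓝 T) (b := 𝓟 {V | IsIsom V}))
    have h3 : ∀ V : EndS b p hp, trPair b (op (V x)) (op (matS b k' k hp')) =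
        ⟪b k, op (V x) (b k')⟫_ℂ := fun V => trPair_matUnit b _ _ _
    simpa only [h3] using h2

lemma tendsto_norm_rpow {α : Type*} {l : Filter α} {f : α → ℂ} {p : ℝ} (hp : 0 < p)
    (hf : Tendsto f l (𝓝 1)) : Tendsto (fun a => ‖f a‖ ^ p) l (𝓝 1) := by
  have h1 : Tendsto (fun a => ‖f a‖) l (𝓝 1) := by
    have := hf.norm
    simpa using this
  have h2 := h1.rpow_const (p := p) (Or.inr hp.le)
  simpa using h2

lemma tendsto_near (b : HilbertBasis ι ℂ H) {p : ℝ} (hp : 1 ≤ p) {α : Type*} {l : Filter α}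
    {W : α → (H →L[ℂ] H)} (hc : ∀ a, Cpt (W a))
    (htr : ∀ᶠ a in l, trAbsPow b p (W a) ≤ ENNReal.ofReal 2) {e e' : H} (he : ‖e‖ = 1)
    (he' : ‖e'‖ = 1) (hee' : ⟪e, e'⟫_ℂ = 0) (h1 : Tendsto (fun a => ⟪e, W a e⟫_ℂ) l (𝓝 1))
    (h2 : Tendsto (fun a => ⟪e', W a e'⟫_ℂ) l (𝓝 1))
    (h3 : Tendsto (fun a => ⟪e', W a e⟫_ℂ) l (𝓝 0)) :
    Tendsto (fun a => ‖W a e - e‖) l (𝓝 0) := by
  have hp0 : 0 < p := by linarith
  have hB : Tendsto (fun a => ((2 - ‖⟪e', W a e'⟫_ℂ‖ ^ p) ^ (1 / p)) ^ 2 -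
      2 * RCLike.re ⟪e, W a e⟫_ℂ + 1 + ‖⟪e', W a e⟫_ℂ‖ ^ 2) l (𝓝 0) := by
    have t1 := (((tendsto_const_nhds (x := (2 : ℝ))).sub (tendsto_norm_rpow hp0 h2)).rpow_const
      (p := 1 / p) (Or.inr (by positivity))).pow 2
    have t2 : Tendsto (fun a => (RCLike.re ⟪e, W a e⟫_ℂ : ℝ)) l (𝓝 (RCLike.re (1 : ℂ))) :=
      (RCLike.continuous_re.tendsto _).comp h1
    have t3 := h3.norm.pow 2
    have t4 := ((t1.sub (t2.const_mul 2)).add (tendsto_const_nhds (x := (1 : ℝ)))).add t3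
    have hval : ((2 - 1 : ℝ) ^ (1 / p)) ^ 2 - 2 * RCLike.re (1 : ℂ) + 1 + ‖(0 : ℂ)‖ ^ 2 = 0 := by
      norm_num
    rwa [hval] at t4
  have hS := (Real.continuous_sqrt.tendsto 0).comp hB
  rw [Real.sqrt_zero] at hS
  refine squeeze_zero' (Eventually.of_forall fun a => norm_nonneg _) ?_ hS
  filter_upwards [htr] with a ha
  have := near_basis b (hc a).1 hp ha he he' hee'
  exact Real.le_sqrt_of_sq_le this

/-- Main theorem, for fixed `i ≠ j`. -/
lemma TT_not_mem (b : HilbertBasis ι ℂ H) {i j : ι} (hij : i ≠ j) {p p' : ℝ}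
    (hp1 : 1 < p) (hp : 0 < p) (hp' : 0 < p') (hp2 : p ≠ 2) :
    TT b i j hp ∉ pwClosIsometries b p p' hp hp' := by
  intro hT
  obtain ⟨l, hl, hiso, hco⟩ := exists_filter b hT
  have hpl : 1 ≤ p := hp1.le
  -- shorthand
  set W : EndS b p hp → (H →L[ℂ] H) := fun V => op (V (EE b i j hp 1 1)) with hWdef
  set X : EndS b p hp → (H →L[ℂ] H) := fun V => op (V (EE b i j hp 1 0)) with hXdef
  set Y : EndS b p hp → (H →L[ℂ] H) := fun V => op (V (EE b i j hp 0 1)) with hYdef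
  have hcW : ∀ V, Cpt (W V) := fun V => Cpt.of_compact (op_compact _)
  have hcX : ∀ V, Cpt (X V) := fun V => Cpt.of_compact (op_compact _)
  have hWXY : ∀ V, W V = X V + Y V := by
    intro V
    simp only [hWdef, hXdef, hYdef]
    rw [← op_add, ← map_add, EE_add]
    simp
  have htrW : ∀ᶠ V in l, trAbsPow b p (W V) ≤ ENNReal.ofReal 2 := by
    filter_upwards [hiso] with V hV
    simp only [hWdef]
    rw [hV.tr_eq]
    refine (trAbsPow_dg b hij 1 1 hp).le.trans ?_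
    rw [← ENNReal.ofReal_add (by positivity) (by positivity)]
    norm_num
  have htrX : ∀ᶠ V in l, trAbsPow b p (X V) ≤ 1 := by
    filter_upwards [hiso] with V hV
    simp only [hXdef]
    rw [hV.tr_eq]
    refine (trAbsPow_dg b hij 1 0 hp).le.trans ?_
    simp [Real.zero_rpow hp.ne']
  have hdisj : ∀ᶠ V in l, X V * star (Y V) = 0 ∧ star (X V) * Y V = 0 := by
    filter_upwards [hiso] with V hV
    exact disjoint_of_isom b hp2 hij hV
  -- limits of the coefficients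
  have hTW : op (TT b i j hp (EE b i j hp 1 1)) = dg b i j 1 1 := by
    rw [coe_TT, op_EE, coef_dg b i j hij]
    norm_num
  have hTX : op (TT b i j hp (EE b i j hp 1 0)) = dg b i j (1 / 2) (1 / 2) := by
    rw [coe_TT, op_EE, coef_dg b i j hij]
    norm_num
  have hdgij : ∀ α β : ℂ, ⟪b i, dg b i j α β (b i)⟫_ℂ = α ∧ ⟪b j, dg b i j α β (b j)⟫_ℂ = β ∧
      ⟪b i, dg b i j α β (b j)⟫_ℂ = 0 ∧ ⟪b j, dg b i j α β (b i)⟫_ℂ = 0 := by
    classical
    intro α β
    unfold dg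
    simp only [FunLike.coe_add, Pi.add_apply, FunLike.coe_smul, Pi.smul_apply, matUnit_apply,
      inner_basis b, inner_add_right, inner_smul_right]
    simp [hij, hij.symm]
  have hWii : Tendsto (fun V => ⟪b i, W V (b i)⟫_ℂ) l (𝓝 1) := by
    have := hco (EE b i j hp 1 1) i i
    rwa [hTW, (hdgij 1 1).1] at this
  have hWjj : Tendsto (fun V => ⟪b j, W V (b j)⟫_ℂ) l (𝓝 1) := by
    have := hco (EE b i j hp 1 1) j j
    rwa [hTW, (hdgij 1 1).2.1] at this
  have hWij : Tendsto (fun V => ⟪b i, W V (b j)⟫_ℂ) l (𝓝 0) := by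
    have := hco (EE b i j hp 1 1) i j
    rwa [hTW, (hdgij 1 1).2.2.1] at this
  have hWji : Tendsto (fun V => ⟪b j, W V (b i)⟫_ℂ) l (𝓝 0) := by
    have := hco (EE b i j hp 1 1) j i
    rwa [hTW, (hdgij 1 1).2.2.2] at this
  have hXii : Tendsto (fun V => ⟪b i, X V (b i)⟫_ℂ) l (𝓝 (1 / 2)) := by
    have := hco (EE b i j hp 1 0) i i
    rwa [hTX, (hdgij _ _).1] at this
  have hXij : Tendsto (fun V => ⟪b i, X V (b j)⟫_ℂ) l (𝓝 0) := by
    have := hco (EE b i j hp 1 0) i j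
    rwa [hTX, (hdgij _ _).2.2.1] at this
  have hi1 := b.orthonormal.1 i
  have hj1 := b.orthonormal.1 j
  have hoij : ⟪b i, b j⟫_ℂ = 0 := b.orthonormal.2 hij
  have hoji : ⟪b j, b i⟫_ℂ = 0 := b.orthonormal.2 hij.symm
  -- `W` is close to the projection at the basis vectors, and so is `W*`
  have n1 := tendsto_near b hpl hcW htrW hi1 hj1 hoij hWii hWjj hWji
  have n2 := tendsto_near b hpl hcW htrW hj1 hi1 hoji hWjj hWii hWij
  have hstar : ∀ (k k' : ι) (c : ℂ), Tendsto (fun V => ⟪b k', W V (b k)⟫_ℂ) l (𝓝 c) →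
      Tendsto (fun V => ⟪b k, (star (W V)) (b k')⟫_ℂ) l (𝓝 ((starRingEnd ℂ) c)) := by
    intro k k' c h
    have h1 := (Complex.continuous_conj.tendsto c).comp h
    refine h1.congr fun V => ?_
    simp only [Function.comp]
    rw [inner_star_right, inner_conj_symm]
  have htrW' : ∀ᶠ V in l, trAbsPow b p (star (W V)) ≤ ENNReal.ofReal 2 := by
    filter_upwards [htrW] with V hV
    rw [trAbsPow_star b (hcW V) hp]
    exact hV
  have s11 := hstar i i 1 hWii
  have s22 := hstar j j 1 hWjj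
  have s12 := hstar i j 0 hWji
  have s21 := hstar j i 0 hWij
  rw [map_one] at s11 s22
  rw [map_zero] at s12 s21
  have m1 := tendsto_near b hpl (fun V => (hcW V).star) htrW' hi1 hj1 hoij s11 s22 s21
  have m2 := tendsto_near b hpl (fun V => (hcW V).star) htrW' hj1 hi1 hoji s22 s11 s12
  -- coefficients of `X`
  have c1 : Tendsto (fun V => ⟪X V (b i), b i⟫_ℂ) l (𝓝 (1 / 2)) := by
    have h1 := (Complex.continuous_conj.tendsto _).comp hXii
    have h2 : (starRingEnd ℂ) (1 / 2 : ℂ) = 1 / 2 := by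
      rw [map_div₀, map_one, Complex.conj_ofNat]
    rw [h2] at h1
    refine h1.congr fun V => ?_
    simp only [Function.comp]
    rw [inner_conj_symm]
  have c2 : Tendsto (fun V => ⟪X V (b j), b i⟫_ℂ) l (𝓝 0) := by
    have h1 := (Complex.continuous_conj.tendsto _).comp hXij
    rw [map_zero] at h1
    refine h1.congr fun V => ?_
    simp only [Function.comp]
    rw [inner_conj_symm]
  -- the error bound tends to zero
  have hErr : Tendsto (fun V => ‖(star (W V)) (b i) - b i‖ + (‖⟪X V (b i), b i⟫_ℂ - 1 / 2‖ +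
      ‖⟪X V (b i), b i⟫_ℂ‖ * ‖W V (b i) - b i‖ + ‖⟪X V (b j), b i⟫_ℂ‖ * (1 + ‖W V (b j) - b j‖) +
      ((2 - (‖⟪b i, W V (b i)⟫_ℂ‖ ^ p + ‖⟪b j, W V (b j)⟫_ℂ‖ ^ p)) ^ (1 / p) +
      ‖(star (W V)) (b i) - b i‖ + ‖(star (W V)) (b j) - b j‖))) l (𝓝 0) := by
    have t1 : Tendsto (fun V => ‖⟪X V (b i), b i⟫_ℂ - 1 / 2‖) l (𝓝 0) := by
      have := (c1.sub_const (1 / 2)).norm
      simpa using this
    have t2 := c1.norm.mul n1
    have t3 := c2.norm.mul ((tendsto_const_nhds (x := (1 : ℝ))).add n2)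
    have t4 := ((tendsto_const_nhds (x := (2 : ℝ))).sub
      ((tendsto_norm_rpow hp hWii).add (tendsto_norm_rpow hp hWjj))).rpow_const
      (p := 1 / p) (Or.inr (by positivity))
    have t5 := m1.add (((t1.add t2).add t3).add ((t4.add m1).add m2))
    have hval : (0 : ℝ) + (0 + ‖(1 / 2 : ℂ)‖ * 0 + ‖(0 : ℂ)‖ * (1 + 0) +
        ((2 - (1 + 1) : ℝ) ^ (1 / p) + 0 + 0)) = 0 := by
      have : (2 - (1 + 1) : ℝ) = 0 := by norm_num
      rw [this, Real.zero_rpow (by positivity)]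
      simp
    rwa [hval] at t5
  have hXhalf : Tendsto (fun V => ‖X V (b i) - (1 / 2 : ℂ) • b i‖) l (𝓝 0) := by
    refine squeeze_zero' (Eventually.of_forall fun V => norm_nonneg _) ?_ hErr
    filter_upwards [htrW, htrX, hdisj] with V h1 h2 h3
    exact main_estimate b hpl (hcX V) (hcW V) (hWXY V) h3.1 h2 h1 hi1 hj1 hoij
  have hXlim : Tendsto (fun V => X V (b i)) l (𝓝 ((1 / 2 : ℂ) • b i)) :=
    tendsto_iff_norm_sub_tendsto_zero.2 hXhalf
  have hWlim : Tendsto (fun V => W V (b i)) l (𝓝 (b i)) := tendsto_iff_norm_sub_tendsto_zero.2 n1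
  -- `‖X e‖² → 1/4`
  have q1 : Tendsto (fun V => ‖X V (b i)‖ ^ 2) l (𝓝 (1 / 4)) := by
    have := hXlim.norm.pow 2
    rw [norm_smul, hi1] at this
    have h2 : (‖(1 / 2 : ℂ)‖ * 1) ^ 2 = 1 / 4 := by norm_num
    rwa [h2] at this
  -- `‖X e‖² → 1/2`
  have q2 : Tendsto (fun V => ‖X V (b i)‖ ^ 2) l (𝓝 (1 / 2)) := by
    have h1 : Tendsto (fun V => (RCLike.re ⟪X V (b i), W V (b i)⟫_ℂ : ℝ)) l
        (𝓝 (RCLike.re ⟪(1 / 2 : ℂ) • b i, b i⟫_ℂ)) :=
      (RCLike.continuous_re.tendsto _).comp (hXlim.inner hWlim)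
    have h2 : (RCLike.re ⟪(1 / 2 : ℂ) • b i, b i⟫_ℂ : ℝ) = 1 / 2 := by
      rw [inner_smul_left, inner_self_eq_norm_sq_to_K, hi1]
      have : (starRingEnd ℂ) (1 / 2 : ℂ) = 1 / 2 := by
        rw [map_div₀, map_one, Complex.conj_ofNat]
      rw [this]
      norm_num
    rw [h2] at h1
    refine h1.congr' ?_
    filter_upwards [hdisj] with V hV
    exact (norm_sq_eq (hWXY V) hV.2 (b i)).symm
  have := tendsto_nhds_unique q1 q2
  norm_num at this

/-- **Main theorem.** Let `H` be an infinite-dimensional complex Hilbert space (with Hilbert basis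
`b`), `1 < p < ∞`, `p ≠ 2`, and `1/p + 1/p' = 1`. There is an absolute contraction `T` on `𝔖_p`
which does not belong to the closure of the set of isometries of `𝔖_p` in the pw-topology. -/
theorem result [Infinite ι] (b : HilbertBasis ι ℂ H) {p p' : ℝ} (hpp' : p.HolderConjugate p')
    (hp2 : p ≠ 2) :
    ∃ T : EndS b p hpp'.pos,
      IsAbsoluteContraction T ∧ T ∉ pwClosIsometries b p p' hpp'.pos hpp'.symm.pos := by
  obtain ⟨i, j, hij⟩ := exists_pair_ne ι
  exact ⟨TT b i j hpp'.pos, TT_absolute b hij hpp'.pos hpp'.lt.le,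
    TT_not_mem b hij hpp'.lt hpp'.pos hpp'.symm.pos hp2⟩

end Pool.Agent.Results.MP_fc6e23_an.AbsoluteContractions
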